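import Pool.Agent.H186.OG.Large

/-!
# The orientation tournament game: the constant is at most `2 + √(8/3) < 3.633`

`OBreakerWins n T` and `OMakerWins n T` (`Pool.Agent.H186.OG.Defs`): OBreaker, respectively OMaker, has a winning strategy
in `Or(T, n)`, where OMaker moves first and wins if the final digraph contains a copy of `T`; `ko n` is `k_o(n)`.

Proof. The potential is the sum over all partial embeddings `g` of `T` into the board that agree with the arcs chosen so
far of `n ^ (- |g|) 2 ^ F(g)`. Here `F(g)` is half the sum of the number `e` of arcs inside the image and of the minimum over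
the sets `S` of vertices of the number of arcs avoiding `S` plus `∑_{i < |S|} min (d, 2 d - i)`, `d` almost
`(2/3) log₂ n`. An arc counts one half if one of its end points has at least `2 d` neighbours in the line and at most one
otherwise. In the first case the known argument (a factor `√2` for every arc) applies. In the second case a round in
which both players choose an edge of the same line is compensated by the lines without an end point of one of the two
edges: taking away a point with fewer than `2 d` neighbours costs at most the factor `2 ^ ((3/2) d)`, which is less than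
`n ^ (1 - η)`. A copy of a tournament with `k` vertices has `F = k ^ 2 / 4 + (3/4) d ^ 2` up to lower order terms.
-/

set_option autoImplicit false

namespace Pool.Agent.Results.MP_90961b_co.BreakerConstant

open Pool.Agent.H186.OG

/-- For every `c > 2 + √(8/3)` and all large `n`: OBreaker wins `Or(T, n)` (and OMaker does not) for every tournament `T` on
`k ≥ c log₂ n` vertices, and `k_o(n) ≤ c log₂ n`. -/
theorem result : ∀ c : ℝ, 2 + √(8 / 3) < c → ∃ n₀ : ℕ, ∀ n : ℕ, n₀ ≤ n →
    (∀ k : ℕ, c * Real.logb 2 n ≤ k → ∀ T : Fin k → Fin k → Prop, IsTour T → OBreakerWins n T ∧ ¬ OMakerWins n T) ∧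
    (ko n : ℝ) ≤ c * Real.logb 2 n := by
  intro c hc
  obtain ⟨c', hc'⟩ : ∃ c' : ℝ, c' = min c 4 := ⟨_, rfl⟩
  have h4 : c' ≤ 4 := by rw [hc']; exact min_le_right _ _
  have h5 : c' ≤ c := by rw [hc']; exact min_le_left _ _
  have hs : √(8 / 3 : ℝ) < 2 := by
    rw [Real.sqrt_lt' (by norm_num)]
    norm_num
  have h6 : 2 + √(8 / 3) < c' := by
    rw [hc']
    exact lt_min hc (by linarith)
  have hs0 : 0 ≤ √(8 / 3 : ℝ) := Real.sqrt_nonneg _
  obtain ⟨L0, hL1, hL0⟩ := breaker_ceil c' h6 h4
  have htend : Filter.Tendsto (fun n : ℕ => Real.logb 2 (n : ℝ)) Filter.atTop Filter.atTop :=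
    (Real.tendsto_logb_atTop (by norm_num)).comp tendsto_natCast_atTop_atTop
  obtain ⟨n₀, hn₀⟩ := Filter.eventually_atTop.1 (htend.eventually_ge_atTop L0)
  refine ⟨n₀, fun n hn => ?_⟩
  have hL := hn₀ n hn
  have hmain : ∀ k : ℕ, c * Real.logb 2 n ≤ k → ∀ T : Fin k → Fin k → Prop, IsTour T → OBreakerWins n T := by
    intro k hk T hT
    have hk2 : ⌈c' * Real.logb 2 n⌉₊ ≤ k := by
      rw [Nat.ceil_le]
      refine le_trans ?_ hk
      exact mul_le_mul_of_nonneg_right h5 (by linarith)
    obtain ⟨k', hk'⟩ : ∃ k' : ℕ, k' = ⌈c' * Real.logb 2 n⌉₊ := ⟨_, rfl⟩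
    rw [← hk'] at hk2
    have h7 := hL0 n hL k' hk' (fun a b => T (Fin.castLE hk2 a) (Fin.castLE hk2 b)) (by
      constructor
      · intro a
        exact hT.1 _
      · intro a b hab
        exact hT.2 _ _ (fun h => hab (Fin.castLE_injective hk2 h)))
    unfold OBreakerWins at h7 ⊢
    apply OBWins.mono _ h7
    rintro D ⟨f, hf, hfT⟩
    exact ⟨fun a => f (Fin.castLE hk2 a), fun a b hab => Fin.castLE_injective hk2 (hf hab),
      fun a b hab => hfT _ _ hab⟩
  refine ⟨fun k hk T hT => ⟨hmain k hk T hT, not_both _ _ _ (hmain k hk T hT)⟩, ?_⟩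
  have hbd : ∀ k : ℕ, (∀ T : Fin k → Fin k → Prop, IsTour T → OMakerWins n T) → (k : ℝ) < c * Real.logb 2 n := by
    intro k hk
    by_contra h8
    push Not at h8
    have hT0 : IsTour (fun a b : Fin k => a < b) := by
      constructor
      · intro a
        exact lt_irrefl a
      · intro a b hab
        rw [not_lt]
        exact ⟨fun h => h.le, fun h => lt_of_le_of_ne h hab⟩
    exact not_both _ _ _ (hmain k h8 _ hT0) (hk _ hT0)
  unfold ko
  by_cases hne : {k : ℕ | ∀ T : Fin k → Fin k → Prop, IsTour T → OMakerWins n T}.Nonempty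
  · have hbdd : BddAbove {k : ℕ | ∀ T : Fin k → Fin k → Prop, IsTour T → OMakerWins n T} := by
      refine ⟨⌈c * Real.logb 2 n⌉₊, fun k hk => ?_⟩
      have := (hbd k hk).le.trans (Nat.le_ceil _)
      exact_mod_cast this
    exact (hbd _ (Nat.sSup_mem hne hbdd)).le
  · rw [Set.not_nonempty_iff_eq_empty] at hne
    rw [hne]
    rw [csSup_empty, bot_eq_zero, Nat.cast_zero]
    exact mul_nonneg (by linarith) (by linarith)

end Pool.Agent.Results.MP_90961b_co.BreakerConstant
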